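import Pool.Agent.Lib.MP_b07157_agD5.A1

/-!
# The points of multiplicity at most two of a homogeneous polynomial in three variables
-/

noncomputable section

namespace MPb07157

open MvPolynomial

namespace D5

open Spl

variable {n : ℕ}

theorem lowZ_three {G : MvPowerSeries (Fin n) ℂ} (h0 : MvPowerSeries.constantCoeff G = 0)
    (h1 : Gr G = 0) (h2 : Hs G = 0) : LowZ 3 G := by
  intro v hv
  by_cases hv0 : v = 0
  · rw [hv0, MvPowerSeries.coeff_zero_eq_constantCoeff_apply, h0]
  obtain ⟨i, hi⟩ : ∃ i, v i ≠ 0 := by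
    by_contra hcon
    push Not at hcon
    exact hv0 (Finsupp.ext hcon)
  have hle : Finsupp.single i 1 ≤ v := by
    rw [Finsupp.single_le_iff]
    omega
  obtain ⟨v', rfl⟩ := exists_add_of_le hle
  have hs : ∑ j, (Finsupp.single i 1 + v' : Fin n →₀ ℕ) j = 1 + ∑ j, v' j := by
    simp only [Finsupp.coe_add, Pi.add_apply, Finset.sum_add_distrib]
    congr 1
    rw [Finset.sum_eq_single i, Finsupp.single_eq_same]
    · intro j _ hj
      rw [Finsupp.single_eq_of_ne hj]
    · intro h
      exact absurd (Finset.mem_univ _) h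
  by_cases hv1 : v' = 0
  · rw [hv1, add_zero, ← cc_pderiv]
    exact congrFun h1 i
  obtain ⟨j, hj⟩ : ∃ j, v' j ≠ 0 := by
    by_contra hcon
    push Not at hcon
    exact hv1 (Finsupp.ext hcon)
  have hv2 : v' = Finsupp.single j 1 := by
    have h3 : ∑ k, v' k ≤ 1 := by omega
    have h4 : ∑ k, v' k = v' j + ∑ k ∈ Finset.univ.erase j, v' k :=
      (Finset.add_sum_erase _ _ (Finset.mem_univ j)).symm
    have h5 : ∑ k ∈ Finset.univ.erase j, v' k = 0 := by omega
    rw [Finset.sum_eq_zero_iff] at h5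
    refine Finsupp.ext fun k => ?_
    by_cases hk : k = j
    · subst hk
      rw [Finsupp.single_eq_same]
      omega
    · rw [Finsupp.single_eq_of_ne hk, h5 k (Finset.mem_erase.2 ⟨hk, Finset.mem_univ _⟩)]
  rw [hv2]
  have h3 : Hs G i j = 0 := by rw [h2]; rfl
  rw [Hs_apply, cc_pderiv, MvPowerSeries.coeff_pderiv] at h3
  refine (mul_eq_zero.1 h3).resolve_right ?_
  exact Nat.cast_add_one_ne_zero _

theorem formEquivPow_trans {f g h : MvPolynomial (Fin n) ℂ} (h1 : FormEquivPow f g 1)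
    (h2 : FormEquivPow g h 1) : FormEquivPow f h 1 := by
  obtain ⟨e₁, u₁, h1⟩ := h1
  obtain ⟨e₂, u₂, h2⟩ := h2
  rw [pow_one] at h1 h2
  refine ⟨e₂.trans e₁, u₁ * Units.map (e₁ : MvPowerSeries (Fin n) ℂ →*
    MvPowerSeries (Fin n) ℂ) u₂, ?_⟩
  rw [pow_one, h1, h2, map_mul, Units.val_mul, AlgEquiv.trans_apply, mul_assoc]
  rfl

theorem exists_perm (i₀ : Fin 3) : ∃ σ : Equiv.Perm (Fin 3), ∀ j : Fin 2,
    σ (i₀.succAbove j) = j.castSucc := by
  revert i₀
  decide

/-- The points of multiplicity at most two are quasi-homogeneous. -/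
theorem isWHAt_of_coeff {f : MvPolynomial (Fin 3) ℂ} {d : ℕ} (hh : f.IsHomogeneous d)
    {p : Fin 3 → ℂ} (hp : p ≠ 0) (h0 : eval p f = 0) {v : Fin 3 →₀ ℕ} (hv : ∑ i, v i ≤ 2)
    (hc : coeff v (translate p f) ≠ 0) : IsWHAt f p := by
  classical
  obtain ⟨i₀, hi₀⟩ := Function.ne_iff.1 hp
  obtain ⟨g, hg⟩ := formEquiv_of_isHomogeneous hh (i₀ := i₀) hi₀
  obtain ⟨e, u, he⟩ := id hg
  rw [pow_one] at he
  let c : Fin 2 ↪ Fin 3 := ⟨i₀.succAbove, Fin.succAbove_right_injective⟩
  have hR : MvPowerSeries.rename c (g : MvPowerSeries (Fin 2) ℂ) =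
      ((rename i₀.succAbove g : MvPolynomial (Fin 3) ℂ) : MvPowerSeries (Fin 3) ℂ) :=
    MvPowerSeries.rename_coe (f := c) g
  have hg0 : MvPowerSeries.constantCoeff (g : MvPowerSeries (Fin 2) ℂ) = 0 := by
    have h1 := congrArg MvPowerSeries.constantCoeff he
    rw [map_mul, constantCoeff_equiv, ← hR, MvPowerSeries.constantCoeff_rename,
      ← MvPowerSeries.coeff_zero_eq_constantCoeff_apply, MvPolynomial.coeff_coe,
      coeff_zero_translate h0] at h1
    refine (mul_eq_zero.1 h1.symm).resolve_left ?_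
    exact (MvPowerSeries.isUnit_iff_constantCoeff.1 u.isUnit).ne_zero
  have hne : Gr (g : MvPowerSeries (Fin 2) ℂ) ≠ 0 ∨ Hs (g : MvPowerSeries (Fin 2) ℂ) ≠ 0 := by
    by_contra hcon
    push Not at hcon
    apply hc
    have h1 := lowZ_hom (MvPowerSeries.rename c) (lowZ_three hg0 hcon.1 hcon.2)
    have h2 := lowZ_hom (e : MvPowerSeries (Fin 3) ℂ →ₐ[ℂ] MvPowerSeries (Fin 3) ℂ) h1
    have h3 : LowZ (0 + 3) ((u : MvPowerSeries (Fin 3) ℂ) * e (MvPowerSeries.rename c
        (g : MvPowerSeries (Fin 2) ℂ))) := LowZ.mul (LowZ.zero _) h2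
    rw [hR, ← he] at h3
    rw [← MvPolynomial.coeff_coe]
    exact h3 v (by
      have h5 : ∑ i, v i ≤ 2 := hv
      rw [zero_add]
      exact Nat.lt_succ_of_le h5)
  obtain ⟨e', h', w, N, hw0, hw1, hN, hsup, he'⟩ := germ_two hg0 hne
  have hform : FormEquivPow g h' 1 := by
    refine ⟨e'.symm, 1, ?_⟩
    rw [pow_one, Units.val_one, one_mul, ← he', AlgEquiv.symm_apply_apply]
  have h1 := hform.rename_inj (c := i₀.succAbove) Fin.succAbove_right_injective
  obtain ⟨σ, hσ⟩ := exists_perm i₀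
  have h2 : FormEquivPow (rename Fin.castSucc h' : MvPolynomial (Fin 3) ℂ)
      (rename i₀.succAbove h') 1 := by
    have h3 := Cub.formEquivPow_of_polyEquiv (renameEquiv ℂ σ) (fun i => by simp)
      (fun i => by simp) (rename i₀.succAbove h')
    have h4 : (renameEquiv ℂ σ) (rename i₀.succAbove h') = rename Fin.castSucc h' := by
      rw [renameEquiv_apply, rename_rename]
      congr 1
      congr 1
      funext j
      exact hσ j
    rwa [h4] at h3
  refine ⟨rename Fin.castSucc h', ![w 0, w 1, 1], N, hw0, hw1, hN, ?_,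
    formEquivPow_trans (formEquivPow_trans hg h1) (Cub.formEquivPow_symm h2)⟩
  intro v hv
  rw [support_rename_of_injective (Fin.castSucc_injective 2), Finset.mem_image] at hv
  obtain ⟨v', hv', rfl⟩ := hv
  have e0 : (Finsupp.mapDomain Fin.castSucc v' : Fin 3 →₀ ℕ) 0 = v' 0 :=
    Finsupp.mapDomain_apply (Fin.castSucc_injective 2) v' 0
  have e1 : (Finsupp.mapDomain Fin.castSucc v' : Fin 3 →₀ ℕ) 1 = v' 1 :=
    Finsupp.mapDomain_apply (Fin.castSucc_injective 2) v' 1
  have e2 : (Finsupp.mapDomain Fin.castSucc v' : Fin 3 →₀ ℕ) 2 = 0 := by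
    apply Finsupp.mapDomain_of_notMem_range
    rintro ⟨j, hj⟩
    exact absurd hj (Fin.castSucc_lt_last j).ne
  refine ⟨?_, e2⟩
  rw [e0, e1]
  exact hsup v' hv'

theorem coeff_zero_translate' (f : MvPolynomial (Fin n) ℂ) (p : Fin n → ℂ) :
    coeff 0 (translate p f) = eval p f := by
  have h : constantCoeff (translate p f) = eval p f := by
    unfold translate
    rw [aeval_def, hom_eval₂]
    simp [eval_eq', eval₂_eq']
  rw [← h, constantCoeff_eq]

/-- The points of a homogeneous polynomial in three variables where some partial derivative of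
order one or two does not vanish are quasi-homogeneous. -/
theorem isWHAt_of_deriv {f : MvPolynomial (Fin 3) ℂ} {d : ℕ} (hh : f.IsHomogeneous d)
    {p : Fin 3 → ℂ} (hp : p ≠ 0) (h0 : eval p f = 0)
    (h : (∃ i, eval p (pderiv i f) ≠ 0) ∨ ∃ i j, eval p (pderiv i (pderiv j f)) ≠ 0) :
    IsWHAt f p := by
  classical
  rcases h with ⟨i, hi⟩ | ⟨i, j, hij⟩
  · refine isWHAt_of_coeff hh hp h0 (v := Finsupp.single i 1) ?_ ?_
    · rw [Finset.sum_eq_single i (fun j _ hj => Finsupp.single_eq_of_ne hj)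
        (fun h => absurd (Finset.mem_univ _) h), Finsupp.single_eq_same]
      norm_num
    · rw [← coeff_zero_translate', ← pderiv_translate, coeff_pderiv, zero_add] at hi
      exact left_ne_zero_of_mul hi
  · refine isWHAt_of_coeff hh hp h0 (v := Finsupp.single i 1 + Finsupp.single j 1) ?_ ?_
    · simp only [Finsupp.coe_add, Pi.add_apply, Finset.sum_add_distrib]
      rw [Finset.sum_eq_single i (fun j _ hj => Finsupp.single_eq_of_ne hj)
        (fun h => absurd (Finset.mem_univ _) h), Finsupp.single_eq_same,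
        Finset.sum_eq_single j (fun j _ hj => Finsupp.single_eq_of_ne hj)
        (fun h => absurd (Finset.mem_univ _) h), Finsupp.single_eq_same]
    · rw [← coeff_zero_translate', ← pderiv_translate, ← pderiv_translate, coeff_pderiv, zero_add,
        coeff_pderiv] at hij
      exact left_ne_zero_of_mul (left_ne_zero_of_mul hij)

end D5

end MPb07157
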