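import Pool.Agent.Lib.MP_b07157_agE.EDefs
import Pool.Agent.Lib.MP_b07157_agC4.Defs

/-!
# The degree of a form on the lines through a point
-/

noncomputable section

namespace MPb07157

open MvPolynomial

namespace D5

variable {n : ℕ} {f : MvPolynomial (Fin 3) ℂ} {d : ℕ}

theorem eval_lineP (f : MvPolynomial (Fin 3) ℂ) (P q : Fin 3 → ℂ) (x : ℂ) :
    (lineP f P q).eval x = eval (fun i => q i + P i * x) f := by
  unfold lineP
  induction f using MvPolynomial.induction_on with
  | C a => simp
  | add a b ha hb => rw [map_add, map_add, Polynomial.eval_add, ha, hb]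
  | mul_X a i ha => rw [map_mul, map_mul, Polynomial.eval_mul, ha, aeval_X, eval_X]; simp

theorem eval_translate' (p x : Fin n → ℂ) (f : MvPolynomial (Fin n) ℂ) :
    eval x (translate p f) = eval (x + p) f := by
  unfold translate
  induction f using MvPolynomial.induction_on with
  | C a => simp
  | add a b ha hb => simp only [map_add, ha, hb]
  | mul_X a i ha =>
    rw [map_mul, map_mul, ha, map_mul]
    congr 1
    simp

theorem totalDegree_translate_le (p : Fin n → ℂ) (f : MvPolynomial (Fin n) ℂ) :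
    (translate p f).totalDegree ≤ f.totalDegree := by
  classical
  unfold translate
  rw [aeval_def, eval₂_eq]
  refine totalDegree_finsetSum_le fun v hv => ?_
  refine (totalDegree_mul _ _).trans ?_
  rw [algebraMap_eq, totalDegree_C, zero_add]
  refine (totalDegree_finsetProd _ _).trans ?_
  refine le_trans (Finset.sum_le_sum fun i _ => ?_) (le_totalDegree hv)
  refine (totalDegree_pow _ _).trans ?_
  refine le_trans (Nat.mul_le_mul_left _ ?_) (mul_one _).le
  refine (totalDegree_add _ _).trans ?_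
  rw [totalDegree_X, totalDegree_C]
  exact max_le le_rfl zero_le_one

theorem eval_smul_of_isHomogeneous {f : MvPolynomial (Fin n) ℂ} (hf : f.IsHomogeneous d) (t : ℂ)
    (g : Fin n → ℂ) : eval (fun i => t * g i) f = t ^ d * eval g f := by
  classical
  rw [eval_eq, eval_eq, Finset.mul_sum]
  refine Finset.sum_congr rfl fun v hv => ?_
  have h1 : ∑ i ∈ v.support, v i = d := by
    have h2 := hf (mem_support_iff.1 hv)
    rw [Finsupp.weight_apply, Finsupp.sum] at h2
    simpa using h2
  simp only [mul_pow]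
  rw [Finset.prod_mul_distrib, Finset.prod_pow_eq_pow_sum, h1]
  ring

theorem sum_le_of_coeff_translate (hh : f.IsHomogeneous d) (P : Fin 3 → ℂ) {v : Fin 3 →₀ ℕ}
    (hv : coeff v (translate P f) ≠ 0) : ∑ i, v i ≤ d := by
  have h1 := le_totalDegree (mem_support_iff.2 hv)
  have h2 := h1.trans ((totalDegree_translate_le P f).trans hh.totalDegree_le)
  rwa [Finsupp.sum_fintype _ _ (fun _ => rfl)] at h2

/-- The expansion of `f(q + X P)` for large `X`. -/
theorem lineP_eq (hh : f.IsHomogeneous d) (P q : Fin 3 → ℂ) :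
    lineP f P q = ∑ v ∈ (translate P f).support,
      Polynomial.C (coeff v (translate P f) * ∏ i, q i ^ v i) * Polynomial.X ^ (d - ∑ i, v i) := by
  refine mul_left_cancel₀ (Polynomial.X_ne_zero (R := ℂ)) ?_
  refine Polynomial.funext fun x => ?_
  rw [Polynomial.eval_mul, Polynomial.eval_mul, Polynomial.eval_X]
  by_cases hx : x = 0
  · rw [hx, zero_mul, zero_mul]
  congr 1
  rw [eval_lineP, Polynomial.eval_finsetSum]
  have h1 : (fun i => q i + P i * x) = fun i => x * (x⁻¹ * q i + P i) := by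
    funext i
    field_simp
  rw [h1, eval_smul_of_isHomogeneous hh]
  have h2 : eval (fun i => x⁻¹ * q i + P i) f = eval (fun i => x⁻¹ * q i) (translate P f) := by
    rw [eval_translate']
    rfl
  rw [h2, eval_eq', Finset.mul_sum]
  refine Finset.sum_congr rfl fun v hv => ?_
  have h3 := sum_le_of_coeff_translate hh P (mem_support_iff.1 hv)
  rw [Polynomial.eval_mul, Polynomial.eval_C, Polynomial.eval_pow, Polynomial.eval_X]
  have h4 : ∏ i, (x⁻¹ * q i) ^ v i = (x⁻¹) ^ (∑ i, v i) * ∏ i, q i ^ v i := by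
    simp only [mul_pow]
    rw [Finset.prod_mul_distrib, Finset.prod_pow_eq_pow_sum]
  have h5 : x ^ d * (x⁻¹) ^ (∑ i, v i) = x ^ (d - ∑ i, v i) := by
    obtain ⟨c, hc⟩ := Nat.exists_eq_add_of_le h3
    rw [hc, Nat.add_sub_cancel_left, pow_add, mul_assoc, mul_comm (x ^ c), ← mul_assoc, ← mul_pow,
      mul_inv_cancel₀ hx, one_pow, one_mul]
  rw [h4, ← h5]
  ring

/-- If all partial derivatives of order less than `k` vanish at `P`, then the polynomials
`f(q + X P)` have degree at most `d - k`. -/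
theorem natDegree_lineP_le (hh : f.IsHomogeneous d) {P : Fin 3 → ℂ} {k : ℕ}
    (h : ∀ v : Fin 3 →₀ ℕ, ∑ i, v i < k → coeff v (translate P f) = 0) (q : Fin 3 → ℂ) :
    (lineP f P q).natDegree ≤ d - k := by
  rw [lineP_eq hh]
  refine Polynomial.natDegree_sum_le_of_forall_le _ _ fun v hv => ?_
  refine (Polynomial.natDegree_C_mul_X_pow_le _ _).trans ?_
  refine Nat.sub_le_sub_left ?_ d
  by_contra hcon
  exact mem_support_iff.1 hv (h v (not_le.1 hcon))

/-- A curve of degree `d` with a point of multiplicity at least `k`, `d - 2 ≤ k`, `0 < k`,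
`(d, k) ≠ (3, 1)`. -/
theorem condPencil_of_coeff (hh : f.IsHomogeneous d) (hd : 0 < d) {P : Fin 3 → ℂ} (hP : P ≠ 0)
    {k : ℕ} (hk : d ≤ k + 2) (hk0 : 0 < k) (hk3 : d ≠ 3 ∨ 1 < k)
    (h : ∀ v : Fin 3 →₀ ℕ, ∑ i, v i < k → coeff v (translate P f) = 0) : CondPencil f d := by
  classical
  have hle : ∀ q, (lineP f P q).natDegree ≤ d - k := natDegree_lineP_le hh h
  set S : Set ℕ := {e | ∃ q, (lineP f P q).natDegree = e} with hS
  have hbd : BddAbove S := ⟨d - k, by rintro _ ⟨q, rfl⟩; exact hle q⟩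
  have hne : S.Nonempty := ⟨_, 0, rfl⟩
  obtain ⟨q₀, hq₀⟩ := Nat.sSup_mem hne hbd
  set e := sSup S with he
  have he1 : ∀ q, (lineP f P q).natDegree ≤ e := fun q => le_csSup hbd ⟨q, rfl⟩
  have he2 : e ≤ d - k := by rw [← hq₀]; exact hle q₀
  refine ⟨P, e, hP, by omega, by omega, he1, ⟨q₀, hq₀⟩, Or.inr fun q => ?_⟩
  refine (Multiset.toFinset_card_le _).trans ((Polynomial.card_roots' _).trans ?_)
  exact (he1 q).trans (by omega)

end D5

end MPb07157
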