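import Pool.Agent.Lib.MP_b07157_agD5.A2
import Pool.Agent.Lib.MP_b07157_agD5.B0
import Pool.Agent.Lib.MP_b07157_agC4.Main

/-!
# The strong monodromy conjecture for forms of degree at most five in three variables
-/

noncomputable section

namespace MPb07157

open MvPolynomial

namespace D5

variable {f : MvPolynomial (Fin 3) ℂ} {d : ℕ}

/-- The curve has only quasi-homogeneous points, or it has a point of multiplicity at least
three. -/
theorem wh_or_triple (hh : f.IsHomogeneous d) :
    (∀ p ≠ 0, eval p f = 0 → IsWHAt f p) ∨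
      ∃ P : Fin 3 → ℂ, P ≠ 0 ∧ ∀ v : Fin 3 →₀ ℕ, ∑ i, v i < 3 → coeff v (translate P f) = 0 := by
  by_cases h : ∀ p ≠ 0, eval p f = 0 → IsWHAt f p
  · exact Or.inl h
  · right
    push Not at h
    obtain ⟨P, hP, h0, h1⟩ := h
    refine ⟨P, hP, fun v hv => ?_⟩
    by_contra hc
    exact h1 (isWHAt_of_coeff hh hP h0 (by omega) hc)

/-- A curve of degree at most five has only quasi-homogeneous points, or it has a point of
multiplicity at least `d - 2`. -/
theorem cond_of_le_five (hd : 0 < d) (hd5 : d ≤ 5) (hh : f.IsHomogeneous d) :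
    (∀ p ≠ 0, eval p f = 0 → IsWHAt f p) ∨ CondPencil f d := by
  rcases wh_or_triple hh with h | ⟨P, hP, h⟩
  · exact Or.inl h
  · exact Or.inr (condPencil_of_coeff hh hd hP (k := 3) (by omega) (by omega) (by omega) h)

/-- **The strong monodromy conjecture** for homogeneous polynomials of degree at most five in three
variables. -/
theorem smc_le_five (hf : f ≠ 0) (hd : 0 < d) (hd5 : d ≤ 5) (hh : f.IsHomogeneous d) {s₀ : ℚ}
    (hs : s₀ < 0) (hs₀ : IsPole (Zmot f) s₀ ∨ IsPole (Zmot0 f) s₀) :
    IsBernsteinSatoRoot f s₀ ∧ IsLocalBernsteinSatoRoot f s₀ := by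
  rcases cond_of_le_five hd hd5 hh with h | h
  · exact smc_homogeneous_three hf hd hh hs (fun _ => Or.inr (Or.inl h)) hs₀
  · refine roots_of_form fun b hb => ?_
    have hbg : IsBernsteinSato f b := isBernsteinSato_of_form_homogeneous hh hb
    rcases root_of_pole_three hf hd hh hs hs₀ hbg with h1 | h1
    · subst h1
      exact C4.root_of_condPencil hf hd hh h hs₀ b hbg
    · exact h1

end D5

end MPb07157
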