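import Pool.Agent.Lib.MP_b07157_agU.Split2
import Pool.Agent.Lib.MP_b07157_agQ.HThree

/-!
# Plane germs of multiplicity at most two are quasi-homogeneous
-/

noncomputable section

namespace MPb07157

open MvPolynomial

namespace D5

open Spl

variable {n : ℕ}

theorem exists_smooth {F : MvPowerSeries (Fin n) ℂ} (h0 : MvPowerSeries.constantCoeff F = 0)
    {i : Fin n} (hi : MvPowerSeries.coeff (Finsupp.single i 1) F ≠ 0) :
    ∃ e : MvPowerSeries (Fin n) ℂ ≃ₐ[ℂ] MvPowerSeries (Fin n) ℂ, e (MvPowerSeries.X i) = F := by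
  classical
  obtain ⟨e, he⟩ := Spl.exists_equiv' (a := fun j => if j = i then F else MvPowerSeries.X j)
    (by
      intro j
      split_ifs with h
      · exact h0
      · rw [MvPowerSeries.constantCoeff_X])
    (by
      intro v hv
      have h1 : ∀ j, j ≠ i → v j = 0 := by
        intro j hj
        have h2 := hv j
        simp only [if_neg hj, Spl.pderiv_X] at h2
        rw [Finset.sum_eq_single j] at h2
        · rwa [if_pos rfl, map_one, one_mul] at h2
        · intro l _ hl
          rw [if_neg hl, map_zero, zero_mul]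
        · intro h
          exact absurd (Finset.mem_univ _) h
      have h2 := hv i
      simp only [if_true, Spl.cc_pderiv] at h2
      rw [Finset.sum_eq_single i] at h2
      · funext j
        by_cases hj : j = i
        · rw [hj]
          exact (mul_eq_zero.1 h2).resolve_left hi
        · exact h1 j hj
      · intro l _ hl
        rw [h1 l hl, mul_zero]
      · intro h
        exact absurd (Finset.mem_univ _) h)
  exact ⟨e, by rw [he, if_pos rfl]⟩

/-- Power series in one variable. -/
theorem exists_pow {b : MvPowerSeries (Fin 1) ℂ} (hb : b ≠ 0)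
    (h0 : MvPowerSeries.constantCoeff b = 0) :
    ∃ (e : MvPowerSeries (Fin 1) ℂ ≃ₐ[ℂ] MvPowerSeries (Fin 1) ℂ) (k : ℕ), 0 < k ∧
      e b = MvPowerSeries.X 0 ^ k := by
  classical
  have hex : ∃ k : ℕ, MvPowerSeries.coeff (Finsupp.single (0 : Fin 1) k) b ≠ 0 := by
    by_contra hcon
    push Not at hcon
    apply hb
    ext v
    have hv : v = Finsupp.single 0 (v 0) := by
      refine Finsupp.ext fun i => ?_
      rw [Subsingleton.elim i 0, Finsupp.single_eq_same]
    rw [hv, hcon, map_zero]
  set k := Nat.find hex with hk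
  have hk1 : MvPowerSeries.coeff (Finsupp.single (0 : Fin 1) k) b ≠ 0 := Nat.find_spec hex
  have hk2 : ∀ j < k, MvPowerSeries.coeff (Finsupp.single (0 : Fin 1) j) b = 0 := fun j hj =>
    not_not.1 (Nat.find_min hex hj)
  have hk0 : 0 < k := by
    rcases Nat.eq_zero_or_pos k with h | h
    · exfalso
      apply hk1
      rw [h, Finsupp.single_zero, MvPowerSeries.coeff_zero_eq_constantCoeff_apply, h0]
    · exact h
  obtain ⟨U, hU⟩ : (MvPowerSeries.X (0 : Fin 1) : MvPowerSeries (Fin 1) ℂ) ^ k ∣ b := by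
    rw [MvPowerSeries.X_pow_dvd_iff]
    intro v hv
    have hv' : v = Finsupp.single 0 (v 0) := by
      refine Finsupp.ext fun i => ?_
      rw [Subsingleton.elim i 0, Finsupp.single_eq_same]
    rw [hv', hk2 _ hv]
  have hU0 : MvPowerSeries.constantCoeff U ≠ 0 := by
    intro h1
    apply hk1
    rw [hU, MvPowerSeries.X_pow_eq]
    have h2 := MvPowerSeries.coeff_add_monomial_mul (R := ℂ) (Finsupp.single (0 : Fin 1) k) 0 U 1
    rw [add_zero] at h2
    rw [h2, MvPowerSeries.coeff_zero_eq_constantCoeff_apply, h1, mul_zero]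
  set β := MvPowerSeries.constantCoeff U with hβ
  obtain ⟨σ, hσ⟩ := IsAlgClosed.exists_pow_nat_eq β (n := k) hk0
  obtain ⟨H, hH1, hH2⟩ := ARL.exists_root (R := ℂ) (N := k) hk0
    (U := MvPowerSeries.C β⁻¹ * U) (by
      rw [map_mul, MvPowerSeries.constantCoeff_C, ← hβ, inv_mul_cancel₀ hU0])
  have hσ0 : σ ≠ 0 := by
    rintro rfl
    apply hU0
    rw [← hσ, zero_pow hk0.ne']
  have hS : (MvPowerSeries.C σ * H) ^ k = U := by
    rw [mul_pow, hH2, ← mul_assoc, ← map_pow, ← map_mul, hσ, mul_inv_cancel₀ hU0,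
      map_one, one_mul]
  obtain ⟨e, he⟩ := exists_smooth (F := MvPowerSeries.X (0 : Fin 1) * (MvPowerSeries.C σ * H))
    (i := 0) (by rw [map_mul, MvPowerSeries.constantCoeff_X, zero_mul])
    (by
      rw [← Spl.cc_pderiv, Derivation.leibniz, Spl.pderiv_X, if_pos rfl, smul_eq_mul, smul_eq_mul,
        mul_one, map_add, map_mul, MvPowerSeries.constantCoeff_X, zero_mul, zero_add, map_mul,
        MvPowerSeries.constantCoeff_C, hH1, mul_one]
      exact hσ0)
  refine ⟨e.symm, k, hk0, ?_⟩
  rw [AlgEquiv.symm_apply_eq, map_pow, he, mul_pow, hS]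
  exact hU

/-- A plane germ of multiplicity one or two is, in suitable formal coordinates, a weighted
homogeneous polynomial. -/
theorem germ_two {F : MvPowerSeries (Fin 2) ℂ} (h0 : MvPowerSeries.constantCoeff F = 0)
    (h : Gr F ≠ 0 ∨ Hs F ≠ 0) :
    ∃ (e : MvPowerSeries (Fin 2) ℂ ≃ₐ[ℂ] MvPowerSeries (Fin 2) ℂ) (g : MvPolynomial (Fin 2) ℂ)
      (w : Fin 2 → ℕ) (N : ℕ), 0 < w 0 ∧ 0 < w 1 ∧ 0 < N ∧
      (∀ v ∈ g.support, w 0 * v 0 + w 1 * v 1 = N) ∧ e F = (g : MvPowerSeries (Fin 2) ℂ) := by
  classical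
  by_cases hG : Gr F = 0
  · have hH : Hs F ≠ 0 := h.resolve_left (not_not.2 hG)
    obtain ⟨e₁, he₁⟩ := exists_lin hG hH
    have hG1 := Gr_equiv e₁ hG
    obtain ⟨e₂, b, hb⟩ := morse (G := e₁ F) (congrFun hG1 (Fin.last 1)) he₁
    have hb0 : MvPowerSeries.constantCoeff b = 0 := by
      have h1 := congrArg MvPowerSeries.constantCoeff hb
      rw [constantCoeff_equiv, constantCoeff_equiv, h0, map_add, cc_hom, map_pow,
        MvPowerSeries.constantCoeff_X, zero_pow two_ne_zero, add_zero] at h1
      exact h1.symm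
    by_cases hb1 : b = 0
    · refine ⟨e₁.trans e₂, X 1 ^ 2, fun _ => 1, 2, Nat.one_pos, Nat.one_pos, two_pos, ?_, ?_⟩
      · intro v hv
        rw [X_pow_eq_monomial, support_monomial, if_neg one_ne_zero, Finset.mem_singleton] at hv
        subst hv
        simp
      · rw [AlgEquiv.trans_apply, hb, hb1, map_zero, zero_add, coe_pow, coe_X]
        rfl
    · obtain ⟨e₃, k, hk, he₃⟩ := exists_pow hb1 hb0
      obtain ⟨E, hE1, hE2⟩ := exists_ext e₃
      refine ⟨(e₁.trans e₂).trans E, X 0 ^ k + X 1 ^ 2, ![2, k], 2 * k, two_pos, hk,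
        Nat.mul_pos two_pos hk, ?_, ?_⟩
      · intro v hv
        have hv1 := support_add hv
        rw [X_pow_eq_monomial, X_pow_eq_monomial, Finset.mem_union, support_monomial,
          if_neg one_ne_zero, support_monomial, if_neg one_ne_zero, Finset.mem_singleton,
          Finset.mem_singleton] at hv1
        rcases hv1 with h1 | h1
        · subst h1
          simp
        · subst h1
          simp [mul_comm]
      · rw [AlgEquiv.trans_apply, AlgEquiv.trans_apply, hb, map_add, hE1, he₃, map_pow, map_pow,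
          hE2, R_X, coe_add, coe_pow, coe_pow, coe_X, coe_X]
        rfl
  · obtain ⟨i, hi⟩ := Function.ne_iff.1 hG
    have hi' : MvPowerSeries.coeff (Finsupp.single i 1) F ≠ 0 := by
      rw [← Spl.cc_pderiv]
      exact hi
    obtain ⟨e, he⟩ := exists_smooth h0 hi'
    refine ⟨e.symm, X i, fun _ => 1, 1, Nat.one_pos, Nat.one_pos, Nat.one_pos, ?_, ?_⟩
    · intro v hv
      rw [support_X, Finset.mem_singleton] at hv
      subst hv
      have h1 : ∀ i : Fin 2, 1 * (Finsupp.single i 1 : Fin 2 →₀ ℕ) 0 +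
          1 * (Finsupp.single i 1 : Fin 2 →₀ ℕ) 1 = 1 := by
        intro i
        fin_cases i <;> simp
      exact h1 i
    · rw [AlgEquiv.symm_apply_eq, coe_X, he]

end D5

end MPb07157
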